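import Pool.Agent.Helper881.LsD

set_option autoImplicit false

open Filter Topology

namespace Pool.Agent.Results.MP_141f81_co.GrowthExponent

/-- `m(n,k,L)`: the largest number of `k`-subsets of an `n`-set such that any two distinct ones
meet in a number of elements lying in `L` (the expression of the frozen statement). -/
noncomputable def m (n k : ℕ) (L : Finset ℕ) : ℕ :=
  sSup {s : ℕ | ∃ F : Finset (Finset (Fin n)), F.card = s ∧
    (∀ A ∈ F, A.card = k) ∧
    ∀ A ∈ F, ∀ B ∈ F, A ≠ B → (A ∩ B).card ∈ L}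

/-- For all `k` and all nonempty `L ⊆ {0,…,k-1}` there is a real `α ≥ 1` such that
`m(n,k,L) ≤ C n^α` for all `n ≥ 1` (with a constant `C`), `m(n,k,L) ≥ c n^β` for all `n ≥ k` for
every real `β < α` (with a constant `c > 0` depending on `β`), and
`log m(n,k,L) / log n → α` as `n → ∞`. -/
theorem result (k : ℕ) (L : Finset ℕ) (hL : L.Nonempty) (hLk : L ⊆ Finset.range k) :
    ∃ α : ℝ, 1 ≤ α ∧
      (∃ C : ℝ, 0 < C ∧ ∀ n : ℕ, 1 ≤ n → (m n k L : ℝ) ≤ C * (n : ℝ) ^ α) ∧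
      (∀ β : ℝ, β < α → ∃ c : ℝ, 0 < c ∧ ∀ n : ℕ, k ≤ n → c * (n : ℝ) ^ β ≤ (m n k L : ℝ)) ∧
      Tendsto (fun n : ℕ => Real.log (m n k L) / Real.log n) atTop (𝓝 α) :=
  Pool.Agent.Helper881.Ls.main' k L hL hLk

end Pool.Agent.Results.MP_141f81_co.GrowthExponent
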